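import Pool.Agent.Lib.H96.RdvMixed

/-!
# The coin half tour is not an optimal symmetric strategy on the directed circle

Symmetric rendezvous search on the circle `ℝ/ℤ` with symmetry group `G₂` (the rotations). We show
that the strategy CO-HA-TO (coin half tour) is not optimal: its expected meeting time against itself
is exactly `3/4`, while some mixed strategy has expected meeting time at most `299/400` against
itself. The better strategy: up to time `3/2` follow one of ten direction patterns for the six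
quarters of a time unit (chosen uniformly at random), afterwards coin half tours.
-/

open MeasureTheory Set
open scoped ENNReal NNReal

namespace Pool.Agent.Results.MP_925b40_pr.CoinHalfTourDirected

/-- The path space: continuous maps from `[0, ∞)` to the circle `ℝ/ℤ` of circumference `1`, with the
compact-open topology. -/
abbrev Path := C(ℝ≥0, UnitAddCircle)

/-- The meeting time of two paths: the least `τ` with `p τ = q τ` (and `∞` if there is none). -/
noncomputable def meetingTime (p q : ℝ≥0 → UnitAddCircle) : ℝ≥0∞ :=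
  ⨅ (τ : ℝ≥0) (_ : p τ = q τ), (τ : ℝ≥0∞)

/-- The expected meeting time of the pure strategies `s₁`, `s₂` on the directed circle (group
`G₂`, the rotations `ρ_a : x ↦ a + x`): `∫_0^1 T(ρ_a ∘ s₁, s₂) da`. -/
noncomputable def expectedTime (s₁ s₂ : Path) : ℝ≥0∞ :=
  ∫⁻ a : UnitAddCircle, meetingTime (fun τ => a + s₁ τ) (fun τ => s₂ τ)

/-- A mixed strategy: a Borel probability measure on the path space which is concentrated on the
pure strategies, that is, the `1`-Lipschitz maps starting at `0`. -/
def IsMixedStrategy (μ : @Measure Path (borel Path)) : Prop :=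
  IsProbabilityMeasure μ ∧ ∀ᵐ (s : Path) ∂μ, LipschitzWith 1 (⇑s) ∧ s 0 = 0

/-- The expected meeting time (directed circle) when both players use the mixed strategy `μ`. -/
noncomputable def value (μ : @Measure Path (borel Path)) : ℝ≥0∞ :=
  ∫⁻ s₁, (∫⁻ s₂, expectedTime s₁ s₂ ∂μ) ∂μ

/-- The symmetric rendezvous value `R^s(C, G₂)`: the infimum of the expected meeting times of the
mixed strategies against themselves. -/
noncomputable def rendezvousValue : ℝ≥0∞ :=
  ⨅ (μ : @Measure Path (borel Path)) (_ : IsMixedStrategy μ), value μ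

/-- The measure of infinitely many independent fair coins. -/
noncomputable def fairCoins : Measure (ℕ → Bool) :=
  Measure.infinitePi (fun _ : ℕ => (PMF.uniformOfFintype Bool).toMeasure)

/-- Position (real lift) at time `τ` when the player travels at unit speed in direction `+` (if
`ω k` is `true`) or `-` (if `ω k` is `false`) during `[k/2, (k+1)/2]`, for `k = 0, 1, 2, …`. -/
noncomputable def halfTourPosition (ω : ℕ → Bool) (τ : ℝ) : ℝ :=
  ∫ u in (0 : ℝ)..τ, (if ω ⌊2 * u⌋₊ then (1 : ℝ) else -1)

/-- Doubling of a coin sequence (two quarters per half tour). -/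
def dbl (ω : ℕ → Bool) : ℕ → Bool := fun j => ω (j / 2)

lemma halfTourPosition_eq (ω : ℕ → Bool) (τ : ℝ) :
    halfTourPosition ω τ = Lib.H96.Rdv.pos (dbl ω) τ := by
  unfold halfTourPosition Lib.H96.Rdv.pos
  apply intervalIntegral.integral_congr
  intro u _
  have h : ⌊2 * u⌋₊ = ⌊4 * u⌋₊ / 2 := by
    rw [← Nat.floor_div_natCast]
    congr 1
    push_cast
    ring
  change (if ω ⌊2 * u⌋₊ then (1 : ℝ) else -1) = (if ω (⌊4 * u⌋₊ / 2) then (1 : ℝ) else -1)
  rw [h]

/-- The path of the coin half tour with coins `ω`. -/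
noncomputable def halfTourPath (ω : ℕ → Bool) : Path where
  toFun τ := ((halfTourPosition ω (τ : ℝ) : ℝ) : UnitAddCircle)
  continuous_toFun := by
    have h := (Lib.H96.Rdv.path (dbl ω)).continuous
    have h2 : (fun τ : ℝ≥0 => ((halfTourPosition ω (τ : ℝ) : ℝ) : UnitAddCircle))
        = Lib.H96.Rdv.path (dbl ω) := by
      funext τ
      rw [halfTourPosition_eq]
      rfl
    rw [h2]
    exact h

/-- The mixed strategy CO-HA-TO (coin half tour): the law of `halfTourPath ω` for fair coins `ω`. -/
noncomputable def coHaTo : @Measure Path (borel Path) :=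
  @Measure.map (ℕ → Bool) Path _ (borel Path) halfTourPath fairCoins

open Lib.H96.Rdv

local instance instMeasPath : MeasurableSpace Path := borel Path

local instance instBorelPath : BorelSpace Path := ⟨rfl⟩

lemma halfTourPath_eq (ω : ℕ → Bool) : halfTourPath ω = path (dbl ω) := by
  ext τ
  simp only [halfTourPath, ContinuousMap.coe_mk, path_apply, halfTourPosition_eq]

lemma expectedTime_eq (s₁ s₂ : Path) : expectedTime s₁ s₂ = meet s₁ s₂ := rfl

/-! ### The coin half tour -/

lemma pos_half_step (ω : ℕ → Bool) (k : ℕ) (u : ℝ) (h0 : 0 ≤ u) (h1 : u ≤ 1 / 2) :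
    pos (dbl ω) ((k : ℝ) / 2 + u) = pos (dbl ω) ((k : ℝ) / 2) + sgn (ω k) * u := by
  have hk : (k : ℝ) / 2 = ((2 * k : ℕ) : ℝ) / 4 := by push_cast; ring
  have hd0 : dbl ω (2 * k) = ω k := by simp [dbl]
  have hd1 : dbl ω (2 * k + 1) = ω k := by
    unfold dbl
    congr 1
    omega
  rcases le_total u (1 / 4) with h | h
  · rw [hk, pos_step _ _ u h0 h, hd0]
  · have h2 : (k : ℝ) / 2 + u = ((2 * k + 1 : ℕ) : ℝ) / 4 + (u - 1 / 4) := by push_cast; ring
    rw [h2, pos_step _ _ (u - 1 / 4) (by linarith) (by linarith), hd1]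
    have h3 : pos (dbl ω) (((2 * k + 1 : ℕ) : ℝ) / 4)
        = pos (dbl ω) (((2 * k : ℕ) : ℝ) / 4) + sgn (dbl ω (2 * k)) / 4 := pos_succ _ _
    rw [h3, hd0, ← hk]
    ring

lemma pos_half (ω : ℕ → Bool) (k : ℕ) :
    pos (dbl ω) ((k : ℝ) / 2)
      = ∑ j ∈ Finset.range k, (if ω j then (1 / 2 : ℝ) else -1 / 2) := by
  induction k with
  | zero => simp [pos_zero]
  | succ k ih =>
    have h2 : ((k + 1 : ℕ) : ℝ) / 2 = (k : ℝ) / 2 + 1 / 2 := by push_cast; ring
    rw [h2, pos_half_step ω k (1 / 2) (by norm_num) le_rfl, ih, Finset.sum_range_succ]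
    cases ω k
    · simp [sgn]
      norm_num
    · simp [sgn]

lemma coPos_eq (ω : ℕ → Bool) (τ : ℝ≥0) : coPos ω τ = pos (dbl ω) (τ : ℝ) := by
  unfold coPos
  have h1 := Nat.floor_le (by positivity : (0 : ℝ) ≤ 2 * (τ : ℝ))
  have h2 := Nat.lt_floor_add_one (2 * (τ : ℝ))
  have h3 : (τ : ℝ) = (⌊2 * (τ : ℝ)⌋₊ : ℝ) / 2 + ((τ : ℝ) - (⌊2 * (τ : ℝ)⌋₊ : ℝ) / 2) := by ring
  conv_rhs => rw [h3]
  rw [pos_half_step ω _ _ (by linarith) (by linarith), pos_half]
  rfl

lemma G_le_meet (ω ω' : ℕ → Bool) :
    G hCO ω ω' ≤ meet (path (dbl ω)) (path (dbl ω')) := by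
  have h := co_lower ω ω'
  have h1 : (fun τ : ℝ≥0 => ((coPos ω τ : ℝ) : UnitAddCircle)) = path (dbl ω) := by
    funext τ
    rw [coPos_eq]
    rfl
  have h2 : (fun τ : ℝ≥0 => ((coPos ω' τ : ℝ) : UnitAddCircle)) = path (dbl ω') := by
    funext τ
    rw [coPos_eq]
    rfl
  rw [h1, h2] at h
  exact h

lemma dbl_even (ω : ℕ → Bool) (N : ℕ) : dbl ω (2 * N) = ω N := by
  unfold dbl
  congr 1
  omega

lemma dbl_odd (ω : ℕ → Bool) (N : ℕ) : dbl ω (2 * N + 1) = ω N := by
  unfold dbl
  congr 1
  omega

lemma par_dbl (ω ω' : ℕ → Bool) (N : ℕ) (hag : ∀ j < N, ω j = ω' j) :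
    ∀ m ≤ 2 * N, par (dbl ω) (dbl ω') m = false := by
  intro m
  induction m with
  | zero => intro _; rfl
  | succ m ih =>
    intro hm
    have h1 : par (dbl ω) (dbl ω') (m + 1)
        = xor (par (dbl ω) (dbl ω') m) (xor (dbl ω m) (dbl ω' m)) := rfl
    have h2 : dbl ω m = dbl ω' m := hag _ (by omega)
    rw [h1, ih (by omega), h2, Bool.xor_self, Bool.xor_false]

/-- Two coin half tours meet at the expected time `N/2 + 1/4` if the first disagreement of the coins
is at `N`. -/
lemma meet_le_G (ω ω' : ℕ → Bool) :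
    meet (path (dbl ω)) (path (dbl ω')) ≤ G hCO ω ω' := by
  by_cases hne : ω = ω'
  · subst hne
    rw [G_top hCO ω (1 / 2) (by simp) (by simp [hCO])]
    exact le_top
  · have hex : ∃ N, ω N ≠ ω' N := by
      by_contra h
      push Not at h
      exact hne (funext h)
    classical
    let N := Nat.find hex
    have hd : ω N ≠ ω' N := Nat.find_spec hex
    have hag : ∀ j < N, ω j = ω' j := fun j hj => by
      have := Nat.find_min hex hj
      push Not at this
      exact this
    rw [G_eq_of_first hCO ω ω' N hag hd]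
    have hval : (∑ n ∈ Finset.range N, hCO (ω n) (ω n)) + hCO (ω N) (ω' N)
        = ENNReal.ofReal ((((2 * N : ℕ) : ℝ) + ((2 * N + 1 : ℕ) : ℝ) + 1) / 8) := by
      have h1 : (((2 * N : ℕ) : ℝ) + ((2 * N + 1 : ℕ) : ℝ) + 1) / 8 = (N : ℝ) / 2 + 1 / 4 := by
        push_cast; ring
      rw [h1]
      simp only [hCO, if_true, Finset.sum_const, Finset.card_range, if_neg hd]
      rw [ENNReal.ofReal_add (by positivity) (by norm_num), nsmul_eq_mul]
      congr 1
      · rw [ENNReal.ofReal_div_of_pos (by norm_num)]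
        simp [div_eq_mul_inv]
      · rw [ENNReal.ofReal_div_of_pos (by norm_num)]
        simp
    rw [hval]
    have hk : dbl ω (2 * N) ≠ dbl ω' (2 * N) := by
      rw [dbl_even, dbl_even]; exact hd
    have hl : dbl ω (2 * N + 1) ≠ dbl ω' (2 * N + 1) := by
      rw [dbl_odd, dbl_odd]; exact hd
    have hpar0 : par (dbl ω) (dbl ω') (2 * N) = false := par_dbl ω ω' N hag _ le_rfl
    have hpar1 : par (dbl ω) (dbl ω') (2 * N + 1) = true := by
      have h0 : par (dbl ω) (dbl ω') (2 * N + 1)
          = xor (par (dbl ω) (dbl ω') (2 * N)) (xor (dbl ω (2 * N)) (dbl ω' (2 * N))) := rfl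
      rw [h0, hpar0, dbl_even, dbl_even]
      cases h1 : ω N <;> cases h2 : ω' N <;> simp_all
    by_cases ha : ω' N = true
    · apply meet_le _ _ _ _ hk _ hl
      · unfold arc
        rw [hpar1, dbl_odd, ha]
        rfl
      · unfold arc
        rw [hpar0, dbl_even, ha]
        rfl
    · have ha' : ω' N = false := by simpa using ha
      have hsw : (((2 * N : ℕ) : ℝ) + ((2 * N + 1 : ℕ) : ℝ) + 1) / 8
          = (((2 * N + 1 : ℕ) : ℝ) + ((2 * N : ℕ) : ℝ) + 1) / 8 := by ring
      rw [hsw]
      apply meet_le _ _ _ _ hl _ hk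
      · unfold arc
        rw [hpar0, dbl_even, ha']
        rfl
      · unfold arc
        rw [hpar1, dbl_odd, ha']
        rfl

lemma lintegral_hCO : ∫⁻ ω, (∫⁻ ω', G hCO ω ω' ∂coin) ∂coin = 3 / 4 := by
  rw [lintegral_G]
  simp only [hCO]
  simp only [if_true, Bool.true_eq_false, if_false, Bool.false_eq_true]
  have h1 : (1 / 2 : ℝ≥0∞) = ENNReal.ofReal (1 / 2) := by
    rw [ENNReal.ofReal_div_of_pos (by norm_num)]; simp
  have h2 : (1 / 4 : ℝ≥0∞) = ENNReal.ofReal (1 / 4) := by
    rw [ENNReal.ofReal_div_of_pos (by norm_num)]; simp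
  have h3 : (3 / 4 : ℝ≥0∞) = ENNReal.ofReal (3 / 4) := by
    rw [ENNReal.ofReal_div_of_pos (by norm_num)]; simp
  have h4 : (2 : ℝ≥0∞) = ENNReal.ofReal 2 := by simp
  rw [h1, h2, h3, h4, ← ENNReal.ofReal_add (by norm_num) (by norm_num),
    ← ENNReal.ofReal_add (by norm_num) (by norm_num),
    ← ENNReal.ofReal_add (by norm_num) (by norm_num),
    ← ENNReal.ofReal_div_of_pos (by norm_num)]
  norm_num

lemma expectedTime_halfTour (ω ω' : ℕ → Bool) :
    expectedTime (path (dbl ω)) (path (dbl ω')) = G hCO ω ω' :=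
  le_antisymm (meet_le_G ω ω') (G_le_meet ω ω')

lemma path_injective : Function.Injective path := by
  intro e e' h
  by_contra hne
  have hex : ∃ N, e N ≠ e' N := by
    by_contra h
    push Not at h
    exact hne (funext h)
  classical
  let N := Nat.find hex
  have hd : e N ≠ e' N := Nat.find_spec hex
  have hag : ∀ j < N, e j = e' j := fun j hj => by
    have := Nat.find_min hex hj
    push Not at this
    exact this
  have hpar : ∀ k ≤ N, pos e ((k : ℝ) / 4) = pos e' ((k : ℝ) / 4) := by
    intro k
    induction k with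
    | zero => intro _; simp [pos_zero]
    | succ k ih =>
      intro hk
      rw [pos_succ, pos_succ, ih (by omega), hag k (by omega)]
  have hk : (0 : ℝ) ≤ (N : ℝ) / 4 + 1 / 8 := by positivity
  have h1 := congrArg (fun f : Path => f ((N : ℝ) / 4 + 1 / 8).toNNReal) h
  simp only [path_apply, Real.coe_toNNReal _ hk] at h1
  rw [pos_step e N (1 / 8) (by norm_num) (by norm_num),
    pos_step e' N (1 / 8) (by norm_num) (by norm_num), hpar N le_rfl] at h1
  have h2 : ((0 : ℝ) : UnitAddCircle)
      + ((pos e' ((N : ℝ) / 4) + sgn (e N) * (1 / 8) : ℝ) : UnitAddCircle)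
      = ((pos e' ((N : ℝ) / 4) + sgn (e' N) * (1 / 8) : ℝ) : UnitAddCircle) := by
    rw [h1]; simp
  rw [circ_iff] at h2
  obtain ⟨n, hn⟩ := h2
  cases ha : e N <;> cases hb : e' N
  · exact hd (ha.trans hb.symm)
  · rw [ha, hb] at hn
    simp only [sgn_true, sgn_false] at hn
    have h3 : (n : ℝ) = -(1 / 4) := by linarith
    have h4 : (n : ℝ) < 0 := by rw [h3]; norm_num
    have h5 : n < 0 := by exact_mod_cast h4
    have h6 : (n : ℝ) ≤ -1 := by exact_mod_cast (by omega : n ≤ -1)
    linarith
  · rw [ha, hb] at hn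
    simp only [sgn_true, sgn_false] at hn
    have h3 : (n : ℝ) = 1 / 4 := by linarith
    have h4 : (0 : ℝ) < n := by rw [h3]; norm_num
    have h5 : 0 < n := by exact_mod_cast h4
    have h6 : (1 : ℝ) ≤ n := by exact_mod_cast h5
    linarith
  · exact hd (ha.trans hb.symm)

lemma halfTourPath_eq_comp : halfTourPath = path ∘ dbl := by
  funext ω
  exact halfTourPath_eq ω

lemma continuous_dbl : Continuous dbl := by
  apply continuous_pi
  intro j
  exact continuous_apply _

lemma dbl_injective : Function.Injective dbl := by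
  intro ω ω' h
  funext n
  have := congrFun h (2 * n)
  simpa [dbl] using this

lemma measurableEmbedding_halfTourPath : MeasurableEmbedding halfTourPath := by
  rw [halfTourPath_eq_comp]
  have hc : Continuous (path ∘ dbl) := continuous_path.comp continuous_dbl
  exact (hc.isClosedEmbedding (path_injective.comp dbl_injective)).measurableEmbedding

lemma value_coHaTo : value coHaTo = 3 / 4 := by
  unfold value coHaTo
  rw [measurableEmbedding_halfTourPath.lintegral_map]
  simp_rw [measurableEmbedding_halfTourPath.lintegral_map, halfTourPath_eq, expectedTime_halfTour]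
  exact lintegral_hCO

lemma isMixedStrategy_coHaTo : IsMixedStrategy coHaTo := by
  have hm : Measurable halfTourPath := measurableEmbedding_halfTourPath.measurable
  refine ⟨?_, ?_⟩
  · have : IsProbabilityMeasure fairCoins := by unfold fairCoins; infer_instance
    exact Measure.isProbabilityMeasure_map hm.aemeasurable
  · unfold coHaTo
    rw [ae_map_iff hm.aemeasurable isClosed_strategies.measurableSet]
    refine Filter.Eventually.of_forall fun ω => ?_
    rw [halfTourPath_eq]
    exact ⟨path_lipschitz _, path_zero _⟩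

/-! ### The better strategy -/

lemma isMixedStrategy_mixed : IsMixedStrategy mixed :=
  ⟨isProbabilityMeasure_mixed, ae_mixed⟩

/-- **The coin half tour is not optimal on the directed circle.** CO-HA-TO is a mixed strategy
whose expected meeting time against itself is `3/4`, and the symmetric rendezvous value of the
directed circle is at most `299/400 < 3/4`. -/
theorem result : IsMixedStrategy coHaTo ∧ value coHaTo = 3 / 4 ∧ rendezvousValue ≤ 299 / 400 := by
  refine ⟨isMixedStrategy_coHaTo, value_coHaTo,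
    iInf₂_le_of_le mixed isMixedStrategy_mixed ?_⟩
  refine mixed_value.trans (le_of_eq ?_)
  rw [ENNReal.ofReal_div_of_pos (by norm_num)]
  simp

end Pool.Agent.Results.MP_925b40_pr.CoinHalfTourDirected
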