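import Pool.Agent.Lib.H96.RdvMixed

/-!
# The coin half tour is not an optimal symmetric strategy on the undirected circle

Symmetric rendezvous search on the circle `ℝ/ℤ` with symmetry group `G₃` (all isometries). We show
that the strategy CO-HA-TO (coin half tour) is not optimal: its expected meeting time against itself
is at least `3/4`, while some mixed strategy has expected meeting time at most `299/400` against
itself. The better strategy: up to time `3/2` follow one of ten direction patterns for the six
quarters of a time unit (chosen uniformly at random), afterwards coin half tours.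
-/

open MeasureTheory Set
open scoped ENNReal NNReal

namespace Pool.Agent.Results.MP_925b40_pr.CoinHalfTourUndirected

/-- The path space: continuous maps from `[0, ∞)` to the circle `ℝ/ℤ` of circumference `1`, with the
compact-open topology. -/
abbrev Path := C(ℝ≥0, UnitAddCircle)

/-- The meeting time of two paths: the least `τ` with `p τ = q τ` (and `∞` if there is none). -/
noncomputable def meetingTime (p q : ℝ≥0 → UnitAddCircle) : ℝ≥0∞ :=
  ⨅ (τ : ℝ≥0) (_ : p τ = q τ), (τ : ℝ≥0∞)

/-- The expected meeting time of the pure strategies `s₁`, `s₂` on the undirected circle (group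
`G₃`, generated by the rotations and the reflection `x ↦ -x`):
`(1/2) ∫_0^1 [T(ρ_a ∘ s₁, s₂) + T(ρ_a ∘ s₁, σ ∘ s₂)] da`. -/
noncomputable def expectedTime (s₁ s₂ : Path) : ℝ≥0∞ :=
  ((∫⁻ a : UnitAddCircle, meetingTime (fun τ => a + s₁ τ) (fun τ => s₂ τ))
    + (∫⁻ a : UnitAddCircle, meetingTime (fun τ => a + s₁ τ) (fun τ => -s₂ τ))) / 2

/-- A mixed strategy: a Borel probability measure on the path space which is concentrated on the
pure strategies, that is, the `1`-Lipschitz maps starting at `0`. -/
def IsMixedStrategy (μ : @Measure Path (borel Path)) : Prop :=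
  IsProbabilityMeasure μ ∧ ∀ᵐ (s : Path) ∂μ, LipschitzWith 1 (⇑s) ∧ s 0 = 0

/-- The expected meeting time (undirected circle) when both players use the mixed strategy `μ`. -/
noncomputable def value (μ : @Measure Path (borel Path)) : ℝ≥0∞ :=
  ∫⁻ s₁, (∫⁻ s₂, expectedTime s₁ s₂ ∂μ) ∂μ

/-- The measure of infinitely many independent fair coins. -/
noncomputable def fairCoins : Measure (ℕ → Bool) :=
  Measure.infinitePi (fun _ : ℕ => (PMF.uniformOfFintype Bool).toMeasure)

/-- Position (real lift) at time `τ` when the player travels at unit speed in direction `+` (if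
`ω k` is `true`) or `-` (if `ω k` is `false`) during `[k/2, (k+1)/2]`, for `k = 0, 1, 2, …`. -/
noncomputable def halfTourPosition (ω : ℕ → Bool) (τ : ℝ) : ℝ :=
  ∫ u in (0 : ℝ)..τ, (if ω ⌊2 * u⌋₊ then (1 : ℝ) else -1)

/-- Doubling of a coin sequence (two quarters per half tour). -/
def dbl (ω : ℕ → Bool) : ℕ → Bool := fun j => ω (j / 2)

lemma halfTourPosition_eq (ω : ℕ → Bool) (τ : ℝ) :
    halfTourPosition ω τ = Lib.H96.Rdv.pos (dbl ω) τ := by
  unfold halfTourPosition Lib.H96.Rdv.pos
  apply intervalIntegral.integral_congr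
  intro u _
  have h : ⌊2 * u⌋₊ = ⌊4 * u⌋₊ / 2 := by
    rw [← Nat.floor_div_natCast]
    congr 1
    push_cast
    ring
  change (if ω ⌊2 * u⌋₊ then (1 : ℝ) else -1) = (if ω (⌊4 * u⌋₊ / 2) then (1 : ℝ) else -1)
  rw [h]

/-- The path of the coin half tour with coins `ω`. -/
noncomputable def halfTourPath (ω : ℕ → Bool) : Path where
  toFun τ := ((halfTourPosition ω (τ : ℝ) : ℝ) : UnitAddCircle)
  continuous_toFun := by
    have h := (Lib.H96.Rdv.path (dbl ω)).continuous
    have h2 : (fun τ : ℝ≥0 => ((halfTourPosition ω (τ : ℝ) : ℝ) : UnitAddCircle))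
        = Lib.H96.Rdv.path (dbl ω) := by
      funext τ
      rw [halfTourPosition_eq]
      rfl
    rw [h2]
    exact h

/-- The mixed strategy CO-HA-TO (coin half tour): the law of `halfTourPath ω` for fair coins `ω`. -/
noncomputable def coHaTo : @Measure Path (borel Path) :=
  @Measure.map (ℕ → Bool) Path _ (borel Path) halfTourPath fairCoins

open Lib.H96.Rdv

local instance instMeasPath : MeasurableSpace Path := borel Path

local instance instBorelPath : BorelSpace Path := ⟨rfl⟩

lemma halfTourPath_eq (ω : ℕ → Bool) : halfTourPath ω = path (dbl ω) := by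
  ext τ
  simp only [halfTourPath, ContinuousMap.coe_mk, path_apply, halfTourPosition_eq]

/-- Negation of all directions. -/
def neg (e : ℕ → Bool) : ℕ → Bool := fun j => !(e j)

lemma pos_neg (e : ℕ → Bool) (τ : ℝ) : pos (neg e) τ = - pos e τ := by
  unfold pos
  rw [← intervalIntegral.integral_neg]
  congr 1
  funext u
  simp only [vel, neg]
  cases e ⌊4 * u⌋₊ <;> simp

lemma path_neg (e : ℕ → Bool) (τ : ℝ≥0) : path (neg e) τ = - path e τ := by
  rw [path_apply, path_apply, pos_neg, AddCircle.coe_neg]

lemma expectedTime_path (e e' : ℕ → Bool) :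
    expectedTime (path e) (path e')
      = (meet (path e) (path e') + meet (path e) (path (neg e'))) / 2 := by
  unfold expectedTime meetingTime meet
  simp_rw [path_neg]

/-! ### Lower bound for the coin half tour -/

lemma pos_half_step (ω : ℕ → Bool) (k : ℕ) (u : ℝ) (h0 : 0 ≤ u) (h1 : u ≤ 1 / 2) :
    pos (dbl ω) ((k : ℝ) / 2 + u) = pos (dbl ω) ((k : ℝ) / 2) + sgn (ω k) * u := by
  have hk : (k : ℝ) / 2 = ((2 * k : ℕ) : ℝ) / 4 := by push_cast; ring
  have hd0 : dbl ω (2 * k) = ω k := by simp [dbl]
  have hd1 : dbl ω (2 * k + 1) = ω k := by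
    unfold dbl
    congr 1
    omega
  rcases le_total u (1 / 4) with h | h
  · rw [hk, pos_step _ _ u h0 h, hd0]
  · have h2 : (k : ℝ) / 2 + u = ((2 * k + 1 : ℕ) : ℝ) / 4 + (u - 1 / 4) := by push_cast; ring
    rw [h2, pos_step _ _ (u - 1 / 4) (by linarith) (by linarith), hd1]
    have h3 : pos (dbl ω) (((2 * k + 1 : ℕ) : ℝ) / 4)
        = pos (dbl ω) (((2 * k : ℕ) : ℝ) / 4) + sgn (dbl ω (2 * k)) / 4 := pos_succ _ _
    rw [h3, hd0, ← hk]
    ring

lemma pos_half (ω : ℕ → Bool) (k : ℕ) :
    pos (dbl ω) ((k : ℝ) / 2)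
      = ∑ j ∈ Finset.range k, (if ω j then (1 / 2 : ℝ) else -1 / 2) := by
  induction k with
  | zero => simp [pos_zero]
  | succ k ih =>
    have h2 : ((k + 1 : ℕ) : ℝ) / 2 = (k : ℝ) / 2 + 1 / 2 := by push_cast; ring
    rw [h2, pos_half_step ω k (1 / 2) (by norm_num) le_rfl, ih, Finset.sum_range_succ]
    cases ω k
    · simp [sgn]
      norm_num
    · simp [sgn]

lemma coPos_eq (ω : ℕ → Bool) (τ : ℝ≥0) : coPos ω τ = pos (dbl ω) (τ : ℝ) := by
  unfold coPos
  have h1 := Nat.floor_le (by positivity : (0 : ℝ) ≤ 2 * (τ : ℝ))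
  have h2 := Nat.lt_floor_add_one (2 * (τ : ℝ))
  have h3 : (τ : ℝ) = (⌊2 * (τ : ℝ)⌋₊ : ℝ) / 2 + ((τ : ℝ) - (⌊2 * (τ : ℝ)⌋₊ : ℝ) / 2) := by ring
  conv_rhs => rw [h3]
  rw [pos_half_step ω _ _ (by linarith) (by linarith), pos_half]
  rfl

lemma G_le_meet (ω ω' : ℕ → Bool) :
    G hCO ω ω' ≤ meet (path (dbl ω)) (path (dbl ω')) := by
  have h := co_lower ω ω'
  have h1 : (fun τ : ℝ≥0 => ((coPos ω τ : ℝ) : UnitAddCircle)) = path (dbl ω) := by
    funext τ
    rw [coPos_eq]
    rfl
  have h2 : (fun τ : ℝ≥0 => ((coPos ω' τ : ℝ) : UnitAddCircle)) = path (dbl ω') := by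
    funext τ
    rw [coPos_eq]
    rfl
  rw [h1, h2] at h
  exact h

lemma neg_dbl (ω : ℕ → Bool) : neg (dbl ω) = dbl (neg ω) := rfl

lemma measurable_neg : Measurable neg := by
  apply measurable_pi_lambda
  intro j
  have : Measurable (fun b : Bool => !b) := measurable_of_finite _
  exact this.comp (measurable_pi_apply j)

lemma map_neg_coin : Measure.map neg coin = coin := by
  have h : Measure.map neg coin
      = Measure.infinitePi (fun _ : ℕ =>
        ((PMF.uniformOfFintype Bool).toMeasure).map (fun b : Bool => !b)) := by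
    have := Measure.infinitePi_map_pi (μ := fun _ : ℕ => (PMF.uniformOfFintype Bool).toMeasure)
      (f := fun _ (b : Bool) => !b) (fun _ => measurable_of_finite _)
    exact this
  rw [h]
  congr 1
  funext _
  have hm : Measurable (fun b : Bool => !b) := measurable_of_finite _
  apply Measure.ext_of_singleton
  intro b
  rw [Measure.map_apply hm (measurableSet_singleton b)]
  have : (fun b : Bool => !b) ⁻¹' {b} = {!b} := by
    ext x
    cases x <;> cases b <;> simp
  rw [this, bool_measure_singleton, bool_measure_singleton]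

lemma measurable_G_right (h : Bool → Bool → ℝ≥0∞) (ω : ℕ → Bool) :
    Measurable (fun ω' => G h ω ω') := by
  unfold G
  apply Measurable.tsum
  intro n
  exact measurable_term_right h n ω

lemma lintegral_neg (F : (ℕ → Bool) → ℝ≥0∞) (hF : Measurable F) :
    ∫⁻ ω, F (neg ω) ∂coin = ∫⁻ ω, F ω ∂coin := by
  conv_rhs => rw [← map_neg_coin]
  rw [lintegral_map hF measurable_neg]

lemma measurable_inner_G (h : Bool → Bool → ℝ≥0∞) :
    Measurable (fun ω => ∫⁻ ω', G h ω ω' ∂coin) := by
  have := measurable_inner 0 h
  simpa using this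

lemma lintegral_hCO : ∫⁻ ω, (∫⁻ ω', G hCO ω ω' ∂coin) ∂coin = 3 / 4 := by
  rw [lintegral_G]
  simp only [hCO]
  simp only [if_true, Bool.true_eq_false, if_false, Bool.false_eq_true]
  have h1 : (1 / 2 : ℝ≥0∞) = ENNReal.ofReal (1 / 2) := by
    rw [ENNReal.ofReal_div_of_pos (by norm_num)]; simp
  have h2 : (1 / 4 : ℝ≥0∞) = ENNReal.ofReal (1 / 4) := by
    rw [ENNReal.ofReal_div_of_pos (by norm_num)]; simp
  have h3 : (3 / 4 : ℝ≥0∞) = ENNReal.ofReal (3 / 4) := by
    rw [ENNReal.ofReal_div_of_pos (by norm_num)]; simp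
  have h4 : (2 : ℝ≥0∞) = ENNReal.ofReal 2 := by simp
  rw [h1, h2, h3, h4, ← ENNReal.ofReal_add (by norm_num) (by norm_num),
    ← ENNReal.ofReal_add (by norm_num) (by norm_num),
    ← ENNReal.ofReal_add (by norm_num) (by norm_num),
    ← ENNReal.ofReal_div_of_pos (by norm_num)]
  norm_num

lemma lower_double :
    (3 / 4 : ℝ≥0∞) ≤ ∫⁻ ω, (∫⁻ ω', expectedTime (path (dbl ω)) (path (dbl ω')) ∂coin) ∂coin := by
  calc (3 / 4 : ℝ≥0∞)
      = ∫⁻ ω, (∫⁻ ω', (G hCO ω ω' + G hCO ω (neg ω')) / 2 ∂coin) ∂coin := by
        have h1 : ∀ ω : ℕ → Bool, ∫⁻ ω', (G hCO ω ω' + G hCO ω (neg ω')) / 2 ∂coin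
            = ∫⁻ ω', G hCO ω ω' ∂coin := by
          intro ω
          simp_rw [div_eq_mul_inv]
          rw [lintegral_mul_const' _ _ (by simp), lintegral_add_left (measurable_G_right _ _),
            lintegral_neg (fun ω' => G hCO ω ω') (measurable_G_right _ _), ← two_mul, mul_comm,
            ← mul_assoc, ENNReal.inv_mul_cancel (by norm_num) (by norm_num), one_mul]
        simp_rw [h1]
        rw [lintegral_hCO]
    _ ≤ _ := by
        apply lintegral_mono
        intro ω
        apply lintegral_mono
        intro ω'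
        simp only
        rw [expectedTime_path, neg_dbl]
        gcongr
        · exact G_le_meet ω ω'
        · exact G_le_meet ω (neg ω')

lemma path_injective : Function.Injective path := by
  intro e e' h
  by_contra hne
  have hex : ∃ N, e N ≠ e' N := by
    by_contra h
    push Not at h
    exact hne (funext h)
  classical
  let N := Nat.find hex
  have hd : e N ≠ e' N := Nat.find_spec hex
  have hag : ∀ j < N, e j = e' j := fun j hj => by
    have := Nat.find_min hex hj
    push Not at this
    exact this
  have hpar : ∀ k ≤ N, pos e ((k : ℝ) / 4) = pos e' ((k : ℝ) / 4) := by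
    intro k
    induction k with
    | zero => intro _; simp [pos_zero]
    | succ k ih =>
      intro hk
      rw [pos_succ, pos_succ, ih (by omega), hag k (by omega)]
  have hk : (0 : ℝ) ≤ (N : ℝ) / 4 + 1 / 8 := by positivity
  have h1 := congrArg (fun f : Path => f ((N : ℝ) / 4 + 1 / 8).toNNReal) h
  simp only [path_apply, Real.coe_toNNReal _ hk] at h1
  rw [pos_step e N (1 / 8) (by norm_num) (by norm_num),
    pos_step e' N (1 / 8) (by norm_num) (by norm_num), hpar N le_rfl] at h1
  have h2 : ((0 : ℝ) : UnitAddCircle)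
      + ((pos e' ((N : ℝ) / 4) + sgn (e N) * (1 / 8) : ℝ) : UnitAddCircle)
      = ((pos e' ((N : ℝ) / 4) + sgn (e' N) * (1 / 8) : ℝ) : UnitAddCircle) := by
    rw [h1]; simp
  rw [circ_iff] at h2
  obtain ⟨n, hn⟩ := h2
  cases ha : e N <;> cases hb : e' N
  · exact hd (ha.trans hb.symm)
  · rw [ha, hb] at hn
    simp only [sgn_true, sgn_false] at hn
    have h3 : (n : ℝ) = -(1 / 4) := by linarith
    have h4 : (n : ℝ) < 0 := by rw [h3]; norm_num
    have h5 : n < 0 := by exact_mod_cast h4
    have h6 : (n : ℝ) ≤ -1 := by exact_mod_cast (by omega : n ≤ -1)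
    linarith
  · rw [ha, hb] at hn
    simp only [sgn_true, sgn_false] at hn
    have h3 : (n : ℝ) = 1 / 4 := by linarith
    have h4 : (0 : ℝ) < n := by rw [h3]; norm_num
    have h5 : 0 < n := by exact_mod_cast h4
    have h6 : (1 : ℝ) ≤ n := by exact_mod_cast h5
    linarith
  · exact hd (ha.trans hb.symm)

lemma halfTourPath_eq_comp : halfTourPath = path ∘ dbl := by
  funext ω
  exact halfTourPath_eq ω

lemma continuous_dbl : Continuous dbl := by
  apply continuous_pi
  intro j
  exact continuous_apply _

lemma dbl_injective : Function.Injective dbl := by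
  intro ω ω' h
  funext n
  have := congrFun h (2 * n)
  simpa [dbl] using this

lemma measurableEmbedding_halfTourPath : MeasurableEmbedding halfTourPath := by
  rw [halfTourPath_eq_comp]
  have hc : Continuous (path ∘ dbl) := continuous_path.comp continuous_dbl
  exact (hc.isClosedEmbedding (path_injective.comp dbl_injective)).measurableEmbedding

lemma value_coHaTo : 3 / 4 ≤ value coHaTo := by
  unfold value coHaTo
  rw [measurableEmbedding_halfTourPath.lintegral_map]
  simp_rw [measurableEmbedding_halfTourPath.lintegral_map, halfTourPath_eq]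
  exact lower_double

lemma isMixedStrategy_coHaTo : IsMixedStrategy coHaTo := by
  have hm : Measurable halfTourPath := measurableEmbedding_halfTourPath.measurable
  refine ⟨?_, ?_⟩
  · have : IsProbabilityMeasure fairCoins := by unfold fairCoins; infer_instance
    exact Measure.isProbabilityMeasure_map hm.aemeasurable
  · unfold coHaTo
    rw [ae_map_iff hm.aemeasurable isClosed_strategies.measurableSet]
    refine Filter.Eventually.of_forall fun ω => ?_
    rw [halfTourPath_eq]
    exact ⟨path_lipschitz _, path_zero _⟩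

/-! ### The better strategy -/

lemma isMixedStrategy_mixed : IsMixedStrategy mixed :=
  ⟨isProbabilityMeasure_mixed, ae_mixed⟩

lemma neg_cat (c : ℕ) (hc : c ∈ codes) (ω : ℕ → Bool) :
    neg (cat c ω) = cat (63 - c) (neg ω) := by
  funext j
  unfold neg cat
  by_cases h : j < 6
  · simp only [h, if_true]
    have : ∀ c ∈ codes, ∀ j < 6, (!(c.testBit j)) = (63 - c).testBit j := by decide
    exact this c hc j h
  · simp only [h, if_false]

lemma total_cost' : ∑ c ∈ codes, ∑ c' ∈ codes, cost16 c (63 - c') = 1196 := by decide +kernel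

lemma value_mixed : value mixed ≤ ENNReal.ofReal (299 / 400) := by
  unfold value
  calc ∫⁻ f, (∫⁻ g, expectedTime f g ∂mixed) ∂mixed
      ≤ (1 / 10) * ∑ c ∈ codes, ∫⁻ ω, (∫⁻ g, expectedTime (path (cat c ω)) g ∂mixed) ∂coin :=
        lintegral_mixed_le _
    _ ≤ (1 / 10) * ∑ c ∈ codes, ∫⁻ ω, ((1 / 10) * ∑ c' ∈ codes,
          ∫⁻ ω', expectedTime (path (cat c ω)) (path (cat c' ω')) ∂coin) ∂coin := by
        gcongr with c _ ω
        exact lintegral_mixed_le (fun g => expectedTime (path (cat c ω)) g)
    _ ≤ (1 / 10) * ∑ c ∈ codes, ∫⁻ ω, ((1 / 10) * ∑ c' ∈ codes,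
          ((∫⁻ ω', (baseCost c c' + G (tailCost c c') ω ω') ∂coin)
            + (∫⁻ ω', (baseCost c (63 - c') + G (tailCost c (63 - c')) ω ω') ∂coin)) / 2) ∂coin := by
        gcongr with c _ ω c' hc'
        calc ∫⁻ ω', expectedTime (path (cat c ω)) (path (cat c' ω')) ∂coin
            ≤ ∫⁻ ω', ((baseCost c c' + G (tailCost c c') ω ω')
              + (baseCost c (63 - c') + G (tailCost c (63 - c')) ω (neg ω'))) / 2 ∂coin := by
              apply lintegral_mono
              intro ω'
              simp only
              rw [expectedTime_path, neg_cat c' hc']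
              gcongr
              · exact bound_pair c c' ω ω'
              · exact bound_pair c (63 - c') ω (neg ω')
          _ = _ := by
              have hm1 : Measurable (fun ω' => baseCost c c' + G (tailCost c c') ω ω') :=
                (measurable_G_right _ _).const_add _
              have hm2 : Measurable
                  (fun ω' => baseCost c (63 - c') + G (tailCost c (63 - c')) ω ω') :=
                (measurable_G_right _ _).const_add _
              simp_rw [div_eq_mul_inv]
              rw [lintegral_mul_const' _ _ (by simp), lintegral_add_left hm1,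
                lintegral_neg (fun ω' => baseCost c (63 - c') + G (tailCost c (63 - c')) ω ω') hm2]
    _ = (1 / 10) * ∑ c ∈ codes, (1 / 10) * ∑ c' ∈ codes,
          (ENNReal.ofReal ((cost16 c c' : ℝ) / 16)
            + ENNReal.ofReal ((cost16 c (63 - c') : ℝ) / 16)) / 2 := by
        congr 1
        apply Finset.sum_congr rfl
        intro c _
        rw [lintegral_const_mul' _ _ (by simp)]
        have hm : ∀ c' ∈ codes, AEMeasurable (fun ω =>
            ((∫⁻ ω', (baseCost c c' + G (tailCost c c') ω ω') ∂coin)
            + (∫⁻ ω', (baseCost c (63 - c') + G (tailCost c (63 - c')) ω ω') ∂coin)) / 2) coin := by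
          intro c' _
          have h1 : Measurable (fun ω => (∫⁻ ω', (baseCost c c' + G (tailCost c c') ω ω') ∂coin)
            + (∫⁻ ω', (baseCost c (63 - c') + G (tailCost c (63 - c')) ω ω') ∂coin)) :=
            (measurable_inner _ _).add (measurable_inner _ _)
          exact (h1.div_const 2).aemeasurable
        rw [lintegral_finsetSum' _ hm]
        congr 1
        apply Finset.sum_congr rfl
        intro c' _
        simp_rw [div_eq_mul_inv]
        rw [lintegral_mul_const' _ _ (by simp), lintegral_add_left (measurable_inner _ _),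
          lintegral_bound, lintegral_bound]
        simp_rw [div_eq_mul_inv]
    _ = ENNReal.ofReal (299 / 400) := by
        have h2 : ((1 : ℝ≥0∞) / 10) = ENNReal.ofReal (1 / 10) := by
          rw [ENNReal.ofReal_div_of_pos (by norm_num)]; simp
        have h20 : (2 : ℝ≥0∞) = ENNReal.ofReal 2 := by simp
        have h0 : ∀ c c' : ℕ, (ENNReal.ofReal ((cost16 c c' : ℝ) / 16)
            + ENNReal.ofReal ((cost16 c (63 - c') : ℝ) / 16)) / 2
            = ENNReal.ofReal (((cost16 c c' : ℝ) / 16 + (cost16 c (63 - c') : ℝ) / 16) / 2) := by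
          intro c c'
          rw [← ENNReal.ofReal_add (by positivity) (by positivity), h20,
            ← ENNReal.ofReal_div_of_pos (by norm_num)]
        simp_rw [h0]
        have h1 : ∀ c ∈ codes, ((1 : ℝ≥0∞) / 10) * ∑ c' ∈ codes,
            ENNReal.ofReal (((cost16 c c' : ℝ) / 16 + (cost16 c (63 - c') : ℝ) / 16) / 2)
            = ENNReal.ofReal ((1 / 10) * ∑ c' ∈ codes,
              ((cost16 c c' : ℝ) / 16 + (cost16 c (63 - c') : ℝ) / 16) / 2) := by
          intro c _
          rw [ENNReal.ofReal_mul (by norm_num), ENNReal.ofReal_sum_of_nonneg (by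
            intro i _; positivity), h2]
        rw [Finset.sum_congr rfl h1, ← ENNReal.ofReal_sum_of_nonneg (by
            intro i _; positivity)]
        rw [h2, ← ENNReal.ofReal_mul (by norm_num)]
        congr 1
        rw [← Finset.mul_sum]
        have h5 : ∀ c ∈ codes, ∑ c' ∈ codes,
            ((cost16 c c' : ℝ) / 16 + (cost16 c (63 - c') : ℝ) / 16) / 2
            = ((∑ c' ∈ codes, (cost16 c c' : ℝ)) + ∑ c' ∈ codes, (cost16 c (63 - c') : ℝ)) / 32 := by
          intro c _
          rw [← Finset.sum_add_distrib, Finset.sum_div]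
          apply Finset.sum_congr rfl
          intro c' _
          ring
        rw [Finset.sum_congr rfl h5, ← Finset.sum_div, Finset.sum_add_distrib]
        have h3 : ∑ c ∈ codes, ∑ c' ∈ codes, (cost16 c c' : ℝ) = 1196 := by
          exact_mod_cast congrArg (Nat.cast : ℕ → ℝ) total_cost
        have h4 : ∑ c ∈ codes, ∑ c' ∈ codes, (cost16 c (63 - c') : ℝ) = 1196 := by
          exact_mod_cast congrArg (Nat.cast : ℕ → ℝ) total_cost'
        rw [h3, h4]
        norm_num

/-- **The coin half tour is not optimal on the undirected circle.** CO-HA-TO is a mixed strategy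
whose expected meeting time against itself is at least `3/4`, and there is a mixed strategy whose
expected meeting time against itself is at most `299/400 < 3/4`. -/
theorem result : IsMixedStrategy coHaTo ∧ 3 / 4 ≤ value coHaTo ∧
    ∃ μ : @Measure Path (borel Path), IsMixedStrategy μ ∧ value μ ≤ 299 / 400 := by
  refine ⟨isMixedStrategy_coHaTo, value_coHaTo, mixed, isMixedStrategy_mixed, ?_⟩
  refine value_mixed.trans (le_of_eq ?_)
  rw [ENNReal.ofReal_div_of_pos (by norm_num)]
  simp

end Pool.Agent.Results.MP_925b40_pr.CoinHalfTourUndirected
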